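import Pool.Agent.R356.Aff
import Pool.Agent.N743.Alg
import Pool.Agent.TH456.TM.Inst

/-!
# Monomials in `t` and `π`, and the numbers `t + b π^k`: pairwise joint measures
-/

set_option autoImplicit false

namespace Pool.Agent.U351.SC

open Polynomial
open Pool.Agent.R356 (JointR jointR_of_rel ev3 ev3_eq)
open Pool.Agent.TH456.TM (measT_pi evR σx)

/-- `f x` is the value of a polynomial with integer coefficients at `u`, `v`, `x` -/
def IsEv (u v : ℝ) (f : ℂ → ℂ) : Prop := ∃ R : ℤ[X][X][X], ∀ x, ev3 u v x R = f x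

variable {u v : ℝ}

lemma isEv_u : IsEv u v fun _ => (u : ℂ) := ⟨C (C X), fun x => by simp [ev3, evR, σx]⟩

lemma isEv_v : IsEv u v fun _ => (v : ℂ) := ⟨C X, fun x => by simp [ev3, evR]⟩

lemma isEv_x : IsEv u v fun x => x := ⟨X, fun x => by simp [ev3]⟩

lemma isEv_int (n : ℤ) : IsEv u v fun _ => (n : ℂ) :=
  ⟨C (C (C n)), fun x => by simp [ev3, evR, σx]⟩

lemma IsEv.mul {f g : ℂ → ℂ} (hf : IsEv u v f) (hg : IsEv u v g) : IsEv u v fun x => f x * g x := by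
  obtain ⟨R, hR⟩ := hf
  obtain ⟨S, hS⟩ := hg
  exact ⟨R * S, fun x => by rw [map_mul, hR, hS]⟩

lemma IsEv.sub {f g : ℂ → ℂ} (hf : IsEv u v f) (hg : IsEv u v g) : IsEv u v fun x => f x - g x := by
  obtain ⟨R, hR⟩ := hf
  obtain ⟨S, hS⟩ := hg
  exact ⟨R - S, fun x => by
    have h := RingHom.map_sub (ev3 u v x) R S
    rw [hR, hS] at h
    exact h⟩

lemma IsEv.add {f g : ℂ → ℂ} (hf : IsEv u v f) (hg : IsEv u v g) : IsEv u v fun x => f x + g x := by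
  obtain ⟨R, hR⟩ := hf
  obtain ⟨S, hS⟩ := hg
  exact ⟨R + S, fun x => by rw [map_add, hR, hS]⟩

lemma IsEv.pow {f : ℂ → ℂ} (hf : IsEv u v f) (n : ℕ) : IsEv u v fun x => f x ^ n := by
  obtain ⟨R, hR⟩ := hf
  exact ⟨R ^ n, fun x => by rw [map_pow, hR]⟩

theorem joint_of_fun {f : ℂ → ℂ} (hf : IsEv u v f) (h0 : f Real.pi = 0) {x₀ : ℂ} (hne : f x₀ ≠ 0) :
    JointR u v := by
  obtain ⟨R, hR⟩ := hf
  exact jointR_of_rel _ measT_pi u v ⟨R, by rw [hR, h0], x₀, by rw [hR]; exact hne⟩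

lemma zpow_split {z : ℂ} (hz : z ≠ 0) (n : ℤ) : z ^ n.toNat = z ^ n * z ^ (-n).toNat := by
  have h : ((n.toNat : ℕ) : ℤ) = n + ((-n).toNat : ℕ) := by omega
  rw [← zpow_natCast z n.toNat, h, zpow_add₀ hz, zpow_natCast]

lemma pi_ne : ((Real.pi : ℝ) : ℂ) ≠ 0 := by exact_mod_cast Real.pi_ne_zero

/-- two monomials -/
theorem joint_mono (t : ℝ) (ht : t ≠ 0) (r r' : ℚ) (hr : r ≠ 0) (hr' : r' ≠ 0) (j k j' k' : ℤ)
    (h : j * k' ≠ j' * k) :
    JointR (r * t ^ j * Real.pi ^ k) (r' * t ^ j' * Real.pi ^ k') := by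
  set u : ℝ := r * t ^ j * Real.pi ^ k with hu
  set v : ℝ := r' * t ^ j' * Real.pi ^ k' with hv
  have hpi := Real.pi_ne_zero
  have hr0 : (r : ℝ) ≠ 0 := by exact_mod_cast hr
  have hr0' : (r' : ℝ) ≠ 0 := by exact_mod_cast hr'
  have hu0 : u ≠ 0 := mul_ne_zero (mul_ne_zero hr0 (zpow_ne_zero _ ht)) (zpow_ne_zero _ hpi)
  have hv0 : v ≠ 0 := mul_ne_zero (mul_ne_zero hr0' (zpow_ne_zero _ ht)) (zpow_ne_zero _ hpi)
  set q : ℚ := r' ^ j / r ^ j' with hq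
  have hq0 : q ≠ 0 := div_ne_zero (zpow_ne_zero _ hr') (zpow_ne_zero _ hr)
  set n : ℤ := k' * j - k * j' with hn
  have hn0 : n ≠ 0 := by
    intro h0
    apply h
    linarith
  have hrel : u ^ j' * Real.pi ^ n * q = v ^ j := by
    rw [hu, hv, hn, hq]
    push_cast
    rw [mul_zpow, mul_zpow, mul_zpow, mul_zpow, ← zpow_mul, ← zpow_mul, ← zpow_mul, ← zpow_mul,
      zpow_sub₀ hpi, mul_comm j j', mul_comm k j', mul_comm k' j]
    field_simp
  have hqn : (q : ℝ) * q.den = q.num := by exact_mod_cast Rat.mul_den_eq_num q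
  have hden : ((q.den : ℤ) : ℂ) ≠ 0 := by exact_mod_cast q.den_ne_zero
  have hnum : ((q.num : ℤ) : ℂ) ≠ 0 := by exact_mod_cast Rat.num_ne_zero.2 hq0
  have huc : (u : ℂ) ≠ 0 := by exact_mod_cast hu0
  have hvc : (v : ℂ) ≠ 0 := by exact_mod_cast hv0
  refine joint_of_fun (f := fun x => (((q.num : ℤ) : ℂ) * (u : ℂ) ^ j'.toNat * (v : ℂ) ^ (-j).toNat) * x ^ n.toNat -
    (((q.den : ℤ) : ℂ) * (u : ℂ) ^ (-j').toNat * (v : ℂ) ^ j.toNat) * x ^ (-n).toNat) ?_ ?_ (x₀ := 0) ?_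
  · exact ((((isEv_int _).mul (isEv_u.pow _)).mul (isEv_v.pow _)).mul (isEv_x.pow _)).sub
      ((((isEv_int _).mul (isEv_u.pow _)).mul (isEv_v.pow _)).mul (isEv_x.pow _))
  · have hrelc : (u : ℂ) ^ j' * ((Real.pi : ℝ) : ℂ) ^ n * ((q : ℝ) : ℂ) = (v : ℂ) ^ j := by
      exact_mod_cast hrel
    have hqnc : ((q : ℝ) : ℂ) * ((q.den : ℤ) : ℂ) = ((q.num : ℤ) : ℂ) := by exact_mod_cast hqn
    rw [zpow_split huc j', zpow_split hvc j, zpow_split pi_ne n, ← hrelc, ← hqnc]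
    ring
  · rcases lt_or_gt_of_ne hn0 with h1 | h1
    · have e1 : n.toNat = 0 := by omega
      have e2 : (-n).toNat ≠ 0 := by omega
      rw [e1, pow_zero, zero_pow e2, mul_zero, sub_zero, mul_one]
      exact mul_ne_zero (mul_ne_zero hnum (pow_ne_zero _ huc)) (pow_ne_zero _ hvc)
    · have e1 : n.toNat ≠ 0 := by omega
      have e2 : (-n).toNat = 0 := by omega
      rw [e2, pow_zero, zero_pow e1, mul_zero, zero_sub, mul_one]
      exact neg_ne_zero.2 (mul_ne_zero (mul_ne_zero hden (pow_ne_zero _ huc)) (pow_ne_zero _ hvc))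

/-- a monomial and a number `t + b π^l` -/
theorem joint_mixed (t : ℝ) (ht : t ≠ 0) (r : ℚ) (hr : r ≠ 0) (j k : ℤ) (hjk : j ≠ 0 ∨ k ≠ 0)
    (b : ℚ) (hb : b ≠ 0) (l : ℤ) (hl : l ≠ 0) (hv0 : t + b * Real.pi ^ l ≠ 0) :
    JointR (r * t ^ j * Real.pi ^ k) (t + b * Real.pi ^ l) := by
  set u : ℝ := r * t ^ j * Real.pi ^ k with hu
  set v : ℝ := t + b * Real.pi ^ l with hv
  have hpi := Real.pi_ne_zero
  have hr0 : (r : ℝ) ≠ 0 := by exact_mod_cast hr
  have hu0 : u ≠ 0 := mul_ne_zero (mul_ne_zero hr0 (zpow_ne_zero _ ht)) (zpow_ne_zero _ hpi)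
  have huc : (u : ℂ) ≠ 0 := by exact_mod_cast hu0
  have hvc : (v : ℂ) ≠ 0 := by exact_mod_cast hv0
  have htc : (t : ℂ) ≠ 0 := by exact_mod_cast ht
  have hrn : ((r : ℝ) : ℂ) * ((r.den : ℤ) : ℂ) = ((r.num : ℤ) : ℂ) := by
    have : (r : ℝ) * r.den = r.num := by exact_mod_cast Rat.mul_den_eq_num r
    exact_mod_cast this
  have hbn : ((b : ℝ) : ℂ) * ((b.den : ℤ) : ℂ) = ((b.num : ℤ) : ℂ) := by
    have : (b : ℝ) * b.den = b.num := by exact_mod_cast Rat.mul_den_eq_num b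
    exact_mod_cast this
  have hrden : ((r.den : ℤ) : ℂ) ≠ 0 := by exact_mod_cast r.den_ne_zero
  have hrnum : ((r.num : ℤ) : ℂ) ≠ 0 := by exact_mod_cast Rat.num_ne_zero.2 hr
  have hbden : ((b.den : ℤ) : ℂ) ≠ 0 := by exact_mod_cast b.den_ne_zero
  have hbnum : ((b.num : ℤ) : ℂ) ≠ 0 := by exact_mod_cast Rat.num_ne_zero.2 hb
  have huv : (u : ℂ) = ((r : ℝ) : ℂ) * (t : ℂ) ^ j * ((Real.pi : ℝ) : ℂ) ^ k := by
    rw [hu]
    push_cast
    ring
  have hvv : (v : ℂ) - ((b : ℝ) : ℂ) * ((Real.pi : ℝ) : ℂ) ^ l = (t : ℂ) := by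
    rw [hv]
    push_cast
    ring
  -- the polynomial `g`
  set g : ℂ → ℂ := fun x => ((b.den : ℤ) : ℂ) * (v : ℂ) * x ^ (-l).toNat - ((b.num : ℤ) : ℂ) * x ^ l.toNat with hg
  have hgE : IsEv u v g := (((isEv_int _).mul isEv_v).mul (isEv_x.pow _)).sub ((isEv_int _).mul (isEv_x.pow _))
  have hgpi : g Real.pi = ((b.den : ℤ) : ℂ) * ((Real.pi : ℝ) : ℂ) ^ (-l).toNat * (t : ℂ) := by
    simp only [hg]
    rw [zpow_split pi_ne l, ← hvv, ← hbn]
    ring
  refine joint_of_fun (f := fun x => (((r.num : ℤ) : ℂ) * ((b.den : ℤ) : ℂ) ^ (-j).toNat) *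
      (g x ^ j.toNat * x ^ (k.toNat + (-l).toNat * (-j).toNat)) -
    (((r.den : ℤ) : ℂ) * ((b.den : ℤ) : ℂ) ^ j.toNat * (u : ℂ)) *
      (g x ^ (-j).toNat * x ^ ((-k).toNat + (-l).toNat * j.toNat))) ?_ ?_
      (x₀ := if j = 0 then 0 else
        (IsAlgClosed.exists_pow_nat_eq (if 0 < l then ((b.den : ℤ) : ℂ) * (v : ℂ) / ((b.num : ℤ) : ℂ) else
          ((b.num : ℤ) : ℂ) / (((b.den : ℤ) : ℂ) * (v : ℂ))) (Int.natAbs_pos.2 hl)).choose) ?_
  · exact (((isEv_int _).mul ((isEv_int _).pow _)).mul ((hgE.pow _).mul (isEv_x.pow _))).sub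
      ((((isEv_int _).mul ((isEv_int _).pow _)).mul isEv_u).mul ((hgE.pow _).mul (isEv_x.pow _)))
  · rw [hgpi, huv, mul_pow, mul_pow, mul_pow, mul_pow, ← pow_mul, ← pow_mul, zpow_split htc j, pow_add, pow_add,
      zpow_split pi_ne k, ← hrn]
    ring
  · by_cases hj : j = 0
    · subst hj
      have hk : k ≠ 0 := by
        rcases hjk with h | h
        · exact absurd rfl h
        · exact h
      simp only [if_true, Int.toNat_zero, neg_zero, pow_zero, mul_zero, add_zero, mul_one, one_mul]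
      rcases lt_or_gt_of_ne hk with h1 | h1
      · have e1 : k.toNat = 0 := by omega
        have e2 : (-k).toNat ≠ 0 := by omega
        rw [e1, pow_zero, zero_pow e2, mul_zero, sub_zero, mul_one]
        exact hrnum
      · have e1 : k.toNat ≠ 0 := by omega
        have e2 : (-k).toNat = 0 := by omega
        rw [e2, pow_zero, zero_pow e1, mul_zero, zero_sub, mul_one]
        exact neg_ne_zero.2 (mul_ne_zero hrden huc)
    · rw [if_neg hj]
      set z := (IsAlgClosed.exists_pow_nat_eq (if 0 < l then ((b.den : ℤ) : ℂ) * (v : ℂ) / ((b.num : ℤ) : ℂ) else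
          ((b.num : ℤ) : ℂ) / (((b.den : ℤ) : ℂ) * (v : ℂ))) (Int.natAbs_pos.2 hl)).choose with hz
      have hzs : z ^ l.natAbs = if 0 < l then ((b.den : ℤ) : ℂ) * (v : ℂ) / ((b.num : ℤ) : ℂ) else
          ((b.num : ℤ) : ℂ) / (((b.den : ℤ) : ℂ) * (v : ℂ)) :=
        (IsAlgClosed.exists_pow_nat_eq (if 0 < l then ((b.den : ℤ) : ℂ) * (v : ℂ) / ((b.num : ℤ) : ℂ) else
          ((b.num : ℤ) : ℂ) / (((b.den : ℤ) : ℂ) * (v : ℂ))) (Int.natAbs_pos.2 hl)).choose_spec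
      have hgz : g z = 0 := by
        simp only [hg]
        rcases lt_or_gt_of_ne hl with h1 | h1
        · rw [if_neg (by omega)] at hzs
          have e1 : l.toNat = 0 := by omega
          have e2 : (-l).toNat = l.natAbs := by omega
          rw [e1, e2, hzs, pow_zero, mul_one, mul_div_cancel₀ _ (mul_ne_zero hbden hvc), sub_self]
        · rw [if_pos h1] at hzs
          have e1 : (-l).toNat = 0 := by omega
          have e2 : l.toNat = l.natAbs := by omega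
          rw [e1, e2, hzs, pow_zero, mul_one, mul_div_cancel₀ _ hbnum, sub_self]
      have hz0 : z ≠ 0 := by
        intro h0
        rw [h0, zero_pow (Int.natAbs_pos.2 hl).ne'] at hzs
        split_ifs at hzs with h1
        · exact div_ne_zero (mul_ne_zero hbden hvc) hbnum hzs.symm
        · exact div_ne_zero hbnum (mul_ne_zero hbden hvc) hzs.symm
      rw [hgz]
      rcases lt_or_gt_of_ne hj with h1 | h1
      · have e1 : j.toNat = 0 := by omega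
        have e2 : (-j).toNat ≠ 0 := by omega
        rw [e1, zero_pow e2, pow_zero, zero_mul, mul_zero, sub_zero, one_mul]
        exact mul_ne_zero (mul_ne_zero hrnum (pow_ne_zero _ hbden)) (pow_ne_zero _ hz0)
      · have e1 : j.toNat ≠ 0 := by omega
        have e2 : (-j).toNat = 0 := by omega
        rw [e2, zero_pow e1, pow_zero, zero_mul, mul_zero, zero_sub, pow_zero, one_mul]
        exact neg_ne_zero.2 (mul_ne_zero (mul_ne_zero (mul_ne_zero hrden (pow_ne_zero _ hbden)) huc)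
          (pow_ne_zero _ hz0))

/-- two numbers `t + b π^k` -/
theorem joint_aff (t : ℝ) (b c : ℚ) (hb : b ≠ 0) (k l : ℤ) (hk : k ≠ 0) (hbc : b ≠ c ∨ k ≠ l) :
    JointR (t + b * Real.pi ^ k) (t + c * Real.pi ^ l) := by
  set u : ℝ := t + b * Real.pi ^ k with hu
  set v : ℝ := t + c * Real.pi ^ l with hv
  have hbn : ((b : ℝ) : ℂ) * ((b.den : ℤ) : ℂ) = ((b.num : ℤ) : ℂ) := by
    have : (b : ℝ) * b.den = b.num := by exact_mod_cast Rat.mul_den_eq_num b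
    exact_mod_cast this
  have hcn : ((c : ℝ) : ℂ) * ((c.den : ℤ) : ℂ) = ((c.num : ℤ) : ℂ) := by
    have : (c : ℝ) * c.den = c.num := by exact_mod_cast Rat.mul_den_eq_num c
    exact_mod_cast this
  have hbden : ((b.den : ℤ) : ℂ) ≠ 0 := by exact_mod_cast b.den_ne_zero
  have hcden : ((c.den : ℤ) : ℂ) ≠ 0 := by exact_mod_cast c.den_ne_zero
  have hrel : (u : ℂ) - (v : ℂ) - ((b : ℝ) : ℂ) * ((Real.pi : ℝ) : ℂ) ^ k +
      ((c : ℝ) : ℂ) * ((Real.pi : ℝ) : ℂ) ^ l = 0 := by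
    rw [hu, hv]
    push_cast
    ring
  set N : ℕ := k.natAbs + l.natAbs with hN
  have hpk : ((Real.pi : ℝ) : ℂ) ^ ((N : ℤ) + k).toNat = ((Real.pi : ℝ) : ℂ) ^ N * ((Real.pi : ℝ) : ℂ) ^ k := by
    rw [← zpow_natCast, Int.toNat_of_nonneg (by omega), zpow_add₀ pi_ne, zpow_natCast]
  have hpl : ((Real.pi : ℝ) : ℂ) ^ ((N : ℤ) + l).toNat = ((Real.pi : ℝ) : ℂ) ^ N * ((Real.pi : ℝ) : ℂ) ^ l := by
    rw [← zpow_natCast, Int.toNat_of_nonneg (by omega), zpow_add₀ pi_ne, zpow_natCast]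
  -- the polynomial in `x`
  set F : ℂ[X] := C (((b.den : ℤ) : ℂ) * ((c.den : ℤ) : ℂ) * ((u : ℂ) - (v : ℂ))) * X ^ N -
    C (((b.num : ℤ) : ℂ) * ((c.den : ℤ) : ℂ)) * X ^ ((N : ℤ) + k).toNat +
    C (((c.num : ℤ) : ℂ) * ((b.den : ℤ) : ℂ)) * X ^ ((N : ℤ) + l).toNat with hF
  have hF0 : F ≠ 0 := by
    intro h0
    have h1 := congrArg (fun p : ℂ[X] => p.coeff ((N : ℤ) + k).toNat) h0
    have hNk : ¬ ((N : ℤ) + k).toNat = N := by omega
    simp only [hF, coeff_add, coeff_sub, coeff_C_mul, coeff_X_pow, coeff_zero, if_neg hNk, if_true, mul_zero,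
      mul_one, zero_sub] at h1
    by_cases hkl : k = l
    · subst hkl
      have hbc' : b ≠ c := by
        rcases hbc with h | h
        · exact h
        · exact absurd rfl h
      rw [if_pos rfl, mul_one, ← hbn, ← hcn] at h1
      have h2 : ((b.den : ℤ) : ℂ) * ((c.den : ℤ) : ℂ) * (((c : ℝ) : ℂ) - ((b : ℝ) : ℂ)) = 0 := by
        linear_combination h1
      rcases mul_eq_zero.1 h2 with h3 | h3
      · exact mul_ne_zero hbden hcden h3
      · apply hbc'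
        have h4 : ((b : ℝ) : ℂ) = ((c : ℝ) : ℂ) := (sub_eq_zero.1 h3).symm
        exact_mod_cast h4
    · have hkl' : ¬ ((N : ℤ) + k).toNat = ((N : ℤ) + l).toNat := by omega
      rw [if_neg hkl', mul_zero, add_zero] at h1
      have h2 : ((b.num : ℤ) : ℂ) ≠ 0 := by exact_mod_cast Rat.num_ne_zero.2 hb
      exact mul_ne_zero h2 hcden (neg_eq_zero.1 h1)
  obtain ⟨x₀, hx₀⟩ : ∃ x : ℂ, F.eval x ≠ 0 := by
    by_contra hcon
    push Not at hcon
    exact hF0 (Polynomial.funext fun t => by rw [hcon t, eval_zero])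
  refine joint_of_fun (f := fun x => ((b.den : ℤ) : ℂ) * ((c.den : ℤ) : ℂ) * ((u : ℂ) - (v : ℂ)) * x ^ N -
    ((b.num : ℤ) : ℂ) * ((c.den : ℤ) : ℂ) * x ^ ((N : ℤ) + k).toNat +
    ((c.num : ℤ) : ℂ) * ((b.den : ℤ) : ℂ) * x ^ ((N : ℤ) + l).toNat) ?_ ?_ (x₀ := x₀) ?_
  · exact (((((isEv_int _).mul (isEv_int _)).mul (isEv_u.sub isEv_v)).mul (isEv_x.pow _)).sub
      (((isEv_int _).mul (isEv_int _)).mul (isEv_x.pow _))).add
      (((isEv_int _).mul (isEv_int _)).mul (isEv_x.pow _))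
  · rw [hpk, hpl, ← hbn, ← hcn]
    linear_combination ((b.den : ℤ) : ℂ) * ((c.den : ℤ) : ℂ) * ((Real.pi : ℝ) : ℂ) ^ N * hrel
  · simp only [hF, eval_add, eval_sub, eval_mul, eval_C, eval_pow, eval_X] at hx₀
    exact hx₀

end Pool.Agent.U351.SC
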